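import Pool.Agent.Helper14.LE.St

set_option autoImplicit false

namespace Pool.Agent.Helper87.LE

open Pool.Agent.Helper14.LK Pool.Agent.Helper14.LE
open scoped ContDiff Topology
open MeasureTheory Set Filter

private theorem der_line {k : ℕ} (ι : EE (k + 1) → WW (k + 1)) (hι : ContDiff ℝ ∞ ι) (c : EE k)
    (s : ℝ) : HasDerivAt (fun r : ℝ => ι (mk (c, r)))
      (fderiv ℝ ι (mk (c, s)) (mk ((0 : EE k), (1 : ℝ)))) s := by
  have h1 : HasDerivAt (fun r : ℝ => ((c, r) : EE k × ℝ)) ((0 : EE k), (1 : ℝ)) s :=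
    (hasDerivAt_const s c).prodMk (hasDerivAt_id s)
  have h2 : HasDerivAt (fun r : ℝ => mk ((c, r) : EE k × ℝ)) (mk ((0 : EE k), (1 : ℝ))) s :=
    (mk (k := k)).hasFDerivAt.comp_hasDerivAt s h1
  have h3 : HasFDerivAt ι (fderiv ℝ ι (mk (c, s))) (mk (c, s)) :=
    (hι.differentiable (by simp) _).hasFDerivAt
  exact h3.comp_hasDerivAt s h2

private theorem cc_der {k : ℕ} (ι : EE (k + 1) → WW (k + 1)) (hι : ContDiff ℝ ∞ ι)
    (hc : ∀ x, cc (ι x) = hd x) (x u : EE (k + 1)) : cc (fderiv ℝ ι x u) = hd u := by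
  have h3 : HasFDerivAt ι (fderiv ℝ ι x) x := (hι.differentiable (by simp) _).hasFDerivAt
  have h4 : HasFDerivAt (fun y => cc (ι y)) ((cc (k := k)).comp (fderiv ℝ ι x)) x :=
    (cc (k := k)).hasFDerivAt.comp x h3
  have h5 : (fun y => cc (ι y)) = fun y => hd (k := k) y := funext hc
  rw [h5] at h4
  have h6 := h4.unique (hd (k := k)).hasFDerivAt
  have h7 := congrArg (fun L => L u) h6
  exact h7

private theorem zz_der {k : ℕ} (ι ι' : EE (k + 1) → WW (k + 1)) (hι : ContDiff ℝ ∞ ι)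
    (hι' : ContDiff ℝ ∞ ι')
    (hz : ∀ x, zz (ι x) = zz (ι' x)) (x u : EE (k + 1)) :
    zz (fderiv ℝ ι x u) = zz (fderiv ℝ ι' x u) := by
  have h3 : HasFDerivAt ι (fderiv ℝ ι x) x := (hι.differentiable (by simp) _).hasFDerivAt
  have h3' : HasFDerivAt ι' (fderiv ℝ ι' x) x := (hι'.differentiable (by simp) _).hasFDerivAt
  have h4 : HasFDerivAt (fun y => zz (ι y)) ((zz (k := k)).comp (fderiv ℝ ι x)) x :=
    (zz (k := k)).hasFDerivAt.comp x h3
  have h4' : HasFDerivAt (fun y => zz (ι' y)) ((zz (k := k)).comp (fderiv ℝ ι' x)) x :=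
    (zz (k := k)).hasFDerivAt.comp x h3'
  have h5 : (fun y => zz (ι y)) = fun y => zz (ι' y) := funext hz
  rw [h5] at h4
  have h6 := h4.unique h4'
  have h7 := congrArg (fun L => L u) h6
  exact h7

private theorem una1 (k : ℕ) (ι ι' : EE (k + 1) → WW (k + 1)) (R : ℝ) (hι : ContDiff ℝ ∞ ι)
    (hι' : ContDiff ℝ ∞ ι') (hi : Isotropic ι) (hi' : Isotropic ι') (hc : ∀ x, cc (ι x) = hd x)
    (hc' : ∀ x, cc (ι' x) = hd x) (hz : ∀ x, zz (ι x) = zz (ι' x))
    (hR : ∀ x, lt x ≤ -R → ι x = ι' x) : ι = ι' := by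
  have key : ∀ x, dd (fderiv ℝ ι x (mk ((0 : EE k), (1 : ℝ)))) =
      dd (fderiv ℝ ι' x (mk ((0 : EE k), (1 : ℝ)))) := by
    intro x
    apply ext_inner_right ℝ
    intro c'
    have h1 := hi x (mk ((0 : EE k), (1 : ℝ))) (mk (c', (0 : ℝ)))
    have h2 := hi' x (mk ((0 : EE k), (1 : ℝ))) (mk (c', (0 : ℝ)))
    rw [om_eq, cc_der ι hι hc, cc_der ι hι hc, hd_mk, hd_mk, inner_zero_left] at h1
    rw [om_eq, cc_der ι' hι' hc', cc_der ι' hι' hc', hd_mk, hd_mk, inner_zero_left,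
      ← zz_der ι ι' hι hι' hz, ← zz_der ι ι' hι hι' hz] at h2
    linarith
  funext x
  apply ext_cdz
  · rw [hc, hc']
  · have hx : x = mk (hd x, lt x) := (mk_hd_lt x).symm
    set c := hd x with hcdef
    set g : ℝ → EE k := fun s => dd (ι (mk (c, s))) - dd (ι' (mk (c, s))) with hg
    have hder : ∀ s, HasDerivAt g 0 s := by
      intro s
      have h1 : HasDerivAt (fun r : ℝ => dd (ι (mk (c, r))))
          (dd (fderiv ℝ ι (mk (c, s)) (mk ((0 : EE k), (1 : ℝ))))) s :=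
        (dd (k := k)).hasFDerivAt.comp_hasDerivAt s (der_line ι hι c s)
      have h2 : HasDerivAt (fun r : ℝ => dd (ι' (mk (c, r))))
          (dd (fderiv ℝ ι' (mk (c, s)) (mk ((0 : EE k), (1 : ℝ))))) s :=
        (dd (k := k)).hasFDerivAt.comp_hasDerivAt s (der_line ι' hι' c s)
      have h3 := h1.sub h2
      rw [key, sub_self] at h3
      exact h3
    have hconst : ∀ s s', g s = g s' :=
      is_const_of_deriv_eq_zero (fun s => (hder s).differentiableAt) (fun s => (hder s).deriv)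
    have h0 : g (-R) = 0 := by
      simp only [hg]
      rw [hR (mk (c, -R)) (by rw [lt_mk]), sub_self]
    have h1 := hconst (lt x) (-R)
    rw [h0] at h1
    simp only [hg] at h1
    rw [← hx] at h1
    exact sub_eq_zero.mp h1
  · exact hz x

/-- the bilinear map `(y, L) ↦ (u ↦ ⟪y, (L u).1⟫)` -/
private noncomputable def BB (k : ℕ) :
    EE (k + 1) →L[ℝ] (EE (k + 1) →L[ℝ] WW (k + 1)) →L[ℝ] (EE (k + 1) →L[ℝ] ℝ) :=
  (ContinuousLinearMap.compL ℝ (EE (k + 1)) (EE (k + 1)) ℝ).bilinearComp (innerSL ℝ)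
      (ContinuousLinearMap.compL ℝ (EE (k + 1)) (WW (k + 1)) (EE (k + 1))
        (ContinuousLinearMap.fst ℝ _ _))

private theorem BB_apply (k : ℕ) (y : EE (k + 1)) (L : EE (k + 1) →L[ℝ] WW (k + 1))
    (u : EE (k + 1)) : BB k y L u = inner ℝ y (L u).1 := by
  simp [BB]

/-- the one-form -/
private noncomputable def al {k : ℕ} (ι : EE (k + 1) → WW (k + 1)) (x : EE (k + 1)) :
    EE (k + 1) →L[ℝ] ℝ := BB k (ι x).2 (fderiv ℝ ι x)

private theorem al_apply {k : ℕ} (ι : EE (k + 1) → WW (k + 1)) (x u : EE (k + 1)) :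
    al ι x u = inner ℝ (ι x).2 (fderiv ℝ ι x u).1 := BB_apply _ _ _ _

private theorem al_smooth {k : ℕ} (ι : EE (k + 1) → WW (k + 1)) (hι : ContDiff ℝ ∞ ι) :
    ContDiff ℝ ∞ (al ι) := by
  have hι2 : ContDiff ℝ ∞ (fun x => (ι x).2) := contDiff_snd.comp hι
  have hfd : ContDiff ℝ ∞ (fderiv ℝ ι) := hι.fderiv_right (by simp)
  show ContDiff ℝ ∞ (fun x => BB k (ι x).2 (fderiv ℝ ι x))
  exact ((BB k).contDiff.comp hι2).clm_apply hfd

private theorem al_der {k : ℕ} (ι : EE (k + 1) → WW (k + 1)) (hι : ContDiff ℝ ∞ ι)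
    (x a b : EE (k + 1)) : fderiv ℝ (al ι) x a b =
      inner ℝ (ι x).2 (fderiv ℝ (fderiv ℝ ι) x a b).1 +
      inner ℝ (fderiv ℝ ι x a).2 (fderiv ℝ ι x b).1 := by
  have hfd : ContDiff ℝ ∞ (fderiv ℝ ι) := hι.fderiv_right (by simp)
  have h1 : HasFDerivAt ι (fderiv ℝ ι x) x := (hι.differentiable (by simp) _).hasFDerivAt
  have h2 : HasFDerivAt (fun x => (ι x).2)
      ((ContinuousLinearMap.snd ℝ (EE (k + 1)) (EE (k + 1))).comp (fderiv ℝ ι x)) x :=
    (ContinuousLinearMap.snd ℝ (EE (k + 1)) (EE (k + 1))).hasFDerivAt.comp x h1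
  have h3 : HasFDerivAt (fderiv ℝ ι) (fderiv ℝ (fderiv ℝ ι) x) x :=
    (hfd.differentiable (by simp) _).hasFDerivAt
  have h4 := (BB k).hasFDerivAt_of_bilinear h2 h3
  have h5 : fderiv ℝ (al ι) x = _ := h4.fderiv
  rw [h5]
  simp only [add_apply, ContinuousLinearMap.precompR_apply,
    ContinuousLinearMap.compL_apply,
    ContinuousLinearMap.precompL_apply, BB_apply, ContinuousLinearMap.comp_apply,
    ContinuousLinearMap.coe_snd']

private theorem al_sym {k : ℕ} (ι : EE (k + 1) → WW (k + 1)) (hι : ContDiff ℝ ∞ ι)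
    (hi : Isotropic ι) (x a b : EE (k + 1)) : fderiv ℝ (al ι) x a b = fderiv ℝ (al ι) x b a := by
  have h1 : fderiv ℝ (fderiv ℝ ι) x a b = fderiv ℝ (fderiv ℝ ι) x b a := by
    have h2 : minSmoothness ℝ 2 ≤ (∞ : WithTop ℕ∞) := by
      rw [minSmoothness_of_isRCLikeNormedField]
      have : ((2 : ℕ∞) : ℕ∞ω) ≤ ((⊤ : ℕ∞) : ℕ∞ω) := WithTop.coe_le_coe.mpr le_top
      exact this
    exact (hι.contDiffAt (x := x)).isSymmSndFDerivAt h2 a b
  have h2 := hi x a b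
  unfold om at h2
  rw [al_der ι hι, al_der ι hι, h1]
  rw [real_inner_comm] at h2
  linarith

private theorem al_zero {k : ℕ} (ι : EE (k + 1) → WW (k + 1)) (x : EE (k + 1))
    (h : (ι x).2 = 0) : al ι x = 0 := by
  ext u
  rw [al_apply, h, inner_zero_left]
  rfl

private theorem exists_f (hPOI : StPOI) (k : ℕ) (hk : 1 ≤ k) (ι : EE (k + 1) → WW (k + 1)) (R : ℝ)
    (hι : ContDiff ℝ ∞ ι) (hi : Isotropic ι) (hR : ∀ x, R ≤ ‖x‖ → (ι x).2 = 0) :
    ∃ f : EE (k + 1) → ℝ, ContDiff ℝ ∞ f ∧ (∀ x, fderiv ℝ f x = al ι x) ∧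
      ∀ x, R ≤ ‖x‖ → f x = 0 := by
  have hdim : 2 ≤ Module.finrank ℝ (EE (k + 1)) := by
    rw [finrank_euclideanSpace_fin]; omega
  have hsm : ContDiff ℝ ∞ (Function.uncurry (fun (_ : ℝ) => al ι)) :=
    (al_smooth ι hι).comp contDiff_snd
  obtain ⟨h, hh, hhd, hh0⟩ := hPOI (EE (k + 1)) hdim (fun _ => al ι)
    hsm (fun _ x a b => al_sym ι hι hi x a b) R (fun _ x hx => al_zero ι x (hR x hx))
  exact ⟨h 0, hh.comp (contDiff_const.prodMk contDiff_id), hhd 0, hh0 0⟩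

private theorem f_der {k : ℕ} (ι : EE (k + 1) → WW (k + 1)) (hι : ContDiff ℝ ∞ ι)
    (hc : ∀ x, cc (ι x) = hd x) (f : EE (k + 1) → ℝ) (hfs : ContDiff ℝ ∞ f)
    (hfd : ∀ x, fderiv ℝ f x = al ι x) (c : EE k) (s : ℝ) :
    HasDerivAt (fun r : ℝ => f (mk (c, r)))
      ((zz (ι (mk (c, s)))).im * (deriv (fun r => zz (ι (mk (c, r)))) s).re) s := by
  have h1 : HasDerivAt (fun r : ℝ => ((c, r) : EE k × ℝ)) ((0 : EE k), (1 : ℝ)) s :=
    (hasDerivAt_const s c).prodMk (hasDerivAt_id s)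
  have h2 : HasDerivAt (fun r : ℝ => mk ((c, r) : EE k × ℝ)) (mk ((0 : EE k), (1 : ℝ))) s :=
    (mk (k := k)).hasFDerivAt.comp_hasDerivAt s h1
  have h3 : HasFDerivAt f (fderiv ℝ f (mk (c, s))) (mk (c, s)) :=
    (hfs.differentiable (by simp) _).hasFDerivAt
  have h4 := h3.comp_hasDerivAt s h2
  have h5 : fderiv ℝ f (mk (c, s)) (mk ((0 : EE k), (1 : ℝ))) =
      (zz (ι (mk (c, s)))).im * (deriv (fun r => zz (ι (mk (c, r)))) s).re := by
    have h6 : HasDerivAt (fun r : ℝ => zz (ι (mk (c, r))))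
        (zz (fderiv ℝ ι (mk (c, s)) (mk ((0 : EE k), (1 : ℝ))))) s :=
      (zz (k := k)).hasFDerivAt.comp_hasDerivAt s (der_line ι hι c s)
    rw [h6.deriv, hfd, al_apply, inner_eq, zz_im, zz_re]
    have h7 := cc_der ι hι hc (mk (c, s)) (mk ((0 : EE k), (1 : ℝ)))
    rw [cc_apply, hd_mk] at h7
    rw [h7, inner_zero_right, zero_add]
  rw [← h5]
  exact h4

private theorem una2 (hPOI : StPOI) (k : ℕ) (hk : 1 ≤ k) (ι : EE (k + 1) → WW (k + 1)) (R : ℝ)
    (hι : ContDiff ℝ ∞ ι) (hi : Isotropic ι) (hc : ∀ x, cc (ι x) = hd x)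
    (hR : ∀ x, R ≤ ‖x‖ → (ι x).2 = 0) (c : EE k) (S : ℝ) (hRS : R ≤ S) :
    ∫ s in Set.Icc (-S) S,
      (zz (ι (mk (c, s)))).im * (deriv (fun r => zz (ι (mk (c, r)))) s).re = 0 := by
  rcases lt_or_ge S 0 with hS | hS
  · rw [Set.Icc_eq_empty (by linarith)]
    simp
  obtain ⟨f, hfs, hfd, hf0⟩ := exists_f hPOI k hk ι R hι hi hR
  have hder := f_der ι hι hc f hfs hfd c
  have hcont : Continuous (fun s : ℝ =>
      (zz (ι (mk (c, s)))).im * (deriv (fun r => zz (ι (mk (c, r)))) s).re) := by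
    have h1 : (fun s : ℝ =>
      (zz (ι (mk (c, s)))).im * (deriv (fun r => zz (ι (mk (c, r)))) s).re) =
      deriv (fun r : ℝ => f (mk (c, r))) := funext fun s => (hder s).deriv.symm
    rw [h1]
    have h2 : ContDiff ℝ ∞ (fun r : ℝ => f (mk ((c, r) : EE k × ℝ))) :=
      hfs.comp ((mk (k := k)).contDiff.comp (contDiff_const.prodMk contDiff_id))
    exact h2.continuous_deriv (by simp)
  rw [integral_Icc_eq_integral_Ioc, ← intervalIntegral.integral_of_le (by linarith),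
    intervalIntegral.integral_eq_sub_of_hasDerivAt (fun s _ => hder s)
      (hcont.intervalIntegrable _ _)]
  have hn : ∀ s : ℝ, |s| = S → f (mk (c, s)) = 0 := by
    intro s hs
    apply hf0
    have h1 := abs_lt_le (mk (c, s))
    rw [lt_mk] at h1
    simp only at h1
    linarith
  rw [hn S (abs_of_nonneg hS), hn (-S) (by rw [abs_neg, abs_of_nonneg hS]), sub_zero]

theorem hUNA (hPOI : StPOI) : StUNA := ⟨una1, una2 hPOI⟩

end Pool.Agent.Helper87.LE
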